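import Mathlib

set_option autoImplicit false

/-!
# A linking system of difference sets in a group of order 1296

Let `A` be an abelian group of order 36 with a sign function `h` whose autocorrelation is `36` at
`0` and `0` elsewhere (a Menon difference set; here `A = ℤ/6 × ℤ/6` and the set is the union of
three subgroups of order 6 without `0`).  In `A × A` take the three subgroups `A × 0`, `0 × A` and
the diagonal, each carrying a copy `g₀, g₁, g₂` of `h`.  Any two of the subgroups are complementary,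
so every `g_i g_j⁻¹` is a sign function on `A × A` with perfect autocorrelation, and
`(g₀ g₁⁻¹) (g₂ g₁⁻¹)⁻¹ = 36 g₀ g₂⁻¹`.  The sets on which `f1 = g₀ g₁⁻¹` and `f2 = g₂ g₁⁻¹` are
negative form a reduced linking system of two `(1296, 630, 306)` difference sets, with
`f3 = g₀ g₂⁻¹` giving the third one.
-/

namespace Pool.Agent.Lib.MP_16ad2f_co

open Finset

section count

variable {G : Type} [Group G] [Fintype G] [DecidableEq G]

/-- the set on which a sign function is negative -/
def neg (f : G → ℤ) : Finset G := univ.filter (fun x => f x = -1)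

omit [Group G] [DecidableEq G] in
theorem mem_neg {f : G → ℤ} {x : G} : x ∈ neg f ↔ f x = -1 := by
  simp [neg]

omit [Group G] in
theorem ind_neg {f : G → ℤ} (hf : ∀ x, f x = 1 ∨ f x = -1) (x : G) :
    2 * (if x ∈ neg f then (1 : ℤ) else 0) = 1 - f x := by
  rcases hf x with h | h
  · simp [mem_neg, h]
  · simp [mem_neg, h]

theorem card_neg {f : G → ℤ} (hf : ∀ x, f x = 1 ∨ f x = -1) :
    2 * ((neg f).card : ℤ) = Fintype.card G - ∑ x, f x := by
  have h1 : ((neg f).card : ℤ) = ∑ x, (if x ∈ neg f then (1 : ℤ) else 0) := by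
    simp
  rw [h1, mul_sum, sum_congr rfl (fun x _ => ind_neg hf x), sum_sub_distrib]
  simp

theorem cnt_eq (D D' : Finset G) (g : G) :
    ((((D ×ˢ D').filter (fun p : G × G => p.1 * p.2⁻¹ = g)).card : ℕ) : ℤ)
      = ∑ y, (if g * y ∈ D then (1 : ℤ) else 0) * (if y ∈ D' then (1 : ℤ) else 0) := by
  have h1 : ((D ×ˢ D').filter (fun p : G × G => p.1 * p.2⁻¹ = g)).card
      = (univ.filter (fun y => g * y ∈ D ∧ y ∈ D')).card := by
    apply card_bij (fun p _ => p.2)
    · rintro ⟨x, y⟩ hp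
      simp only [mem_filter, mem_product, mem_univ, true_and] at hp ⊢
      obtain ⟨⟨h1, h2⟩, h3⟩ := hp
      rw [← h3]
      simpa using ⟨h1, h2⟩
    · rintro ⟨x, y⟩ hp ⟨x', y'⟩ hp' h
      simp only [mem_filter, mem_product] at hp hp' h
      subst h
      have := hp.2.trans hp'.2.symm
      simpa using this
    · intro y hy
      simp only [mem_filter, mem_univ, true_and] at hy
      exact ⟨(g * y, y), by simp [hy.1, hy.2], rfl⟩
  rw [h1, card_filter]
  push_cast
  refine sum_congr rfl fun y _ => ?_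
  by_cases h2 : g * y ∈ D <;> by_cases h3 : y ∈ D' <;> simp [h2, h3]

theorem cnt {f f' : G → ℤ} (hf : ∀ x, f x = 1 ∨ f x = -1) (hf' : ∀ x, f' x = 1 ∨ f' x = -1)
    (g : G) :
    4 * ((((neg f ×ˢ neg f').filter (fun p : G × G => p.1 * p.2⁻¹ = g)).card : ℕ) : ℤ)
      = Fintype.card G - ∑ x, f x - ∑ x, f' x + ∑ y, f (g * y) * f' y := by
  rw [cnt_eq, mul_sum]
  have h1 : ∀ y : G, 4 * ((if g * y ∈ neg f then (1 : ℤ) else 0) *
      (if y ∈ neg f' then (1 : ℤ) else 0)) = 1 - f (g * y) - f' y + f (g * y) * f' y := by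
    intro y
    have e1 := ind_neg hf (g * y)
    have e2 := ind_neg hf' y
    calc 4 * ((if g * y ∈ neg f then (1 : ℤ) else 0) * (if y ∈ neg f' then (1 : ℤ) else 0))
        = (2 * (if g * y ∈ neg f then (1 : ℤ) else 0)) *
          (2 * (if y ∈ neg f' then (1 : ℤ) else 0)) := by ring
      _ = _ := by rw [e1, e2]; ring
  rw [sum_congr rfl (fun y _ => h1 y), sum_add_distrib, sum_sub_distrib, sum_sub_distrib]
  have h2 : ∑ y, f (g * y) = ∑ x, f x := Equiv.sum_comp (Equiv.mulLeft g) f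
  rw [h2]
  simp

end count

section corr

variable {A : Type} [AddCommGroup A] [Fintype A] [DecidableEq A]

/-- sign function on `A` with perfect autocorrelation -/
structure Perfect (h : A → ℤ) (m : ℤ) : Prop where
  sgn : ∀ x, h x = 1 ∨ h x = -1
  auto : ∀ g, ∑ y, h (g + y) * h y = if g = 0 then m else 0

variable {h : A → ℤ} {m : ℤ}

theorem Perfect.auto' (P : Perfect h m) (g : A) : ∑ y, h (g - y) * h (-y) = if g = 0 then m else 0 := by
  rw [← P.auto g]
  have := Equiv.sum_comp (Equiv.neg A) (fun y => h (g + y) * h y)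
  simpa [sub_eq_add_neg] using this

theorem Perfect.shift (P : Perfect h m) (g c : A) :
    ∑ y, h (g + (c - y)) * h (c - y) = if g = 0 then m else 0 := by
  rw [← P.auto g]
  exact Equiv.sum_comp (Equiv.subLeft c) (fun y => h (g + y) * h y)

def f1 (h : A → ℤ) (x : A × A) : ℤ := h x.1 * h (-x.2)
def f2 (h : A → ℤ) (x : A × A) : ℤ := h x.1 * h (x.1 - x.2)
def f3 (h : A → ℤ) (x : A × A) : ℤ := h (x.1 - x.2) * h (-x.2)

theorem mul_sgn {a b : ℤ} (ha : a = 1 ∨ a = -1) (hb : b = 1 ∨ b = -1) : a * b = 1 ∨ a * b = -1 := by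
  rcases ha with h | h <;> rcases hb with h' | h' <;> simp [h, h']

theorem sgn1 (P : Perfect h m) (x : A × A) : f1 h x = 1 ∨ f1 h x = -1 := mul_sgn (P.sgn _) (P.sgn _)
theorem sgn2 (P : Perfect h m) (x : A × A) : f2 h x = 1 ∨ f2 h x = -1 := mul_sgn (P.sgn _) (P.sgn _)
theorem sgn3 (P : Perfect h m) (x : A × A) : f3 h x = 1 ∨ f3 h x = -1 := mul_sgn (P.sgn _) (P.sgn _)

theorem corr11 (P : Perfect h m) (g : A × A) :
    ∑ y, f1 h (g + y) * f1 h y = if g = 0 then m * m else 0 := by
  obtain ⟨s, t⟩ := g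
  rw [Fintype.sum_prod_type]
  have e : ∀ a b : A, f1 h ((s, t) + (a, b)) * f1 h (a, b)
      = (h (s + a) * h a) * (h (-t - b) * h (-b)) := by
    intro a b
    simp only [f1, Prod.mk_add_mk]
    rw [show -(t + b) = -t - b by abel]
    ring
  simp only [e, ← mul_sum, P.auto', ← sum_mul, P.auto]
  by_cases hs : s = 0 <;> by_cases ht : t = 0 <;> simp [hs, ht]

theorem corr22 (P : Perfect h m) (g : A × A) :
    ∑ y, f2 h (g + y) * f2 h y = if g = 0 then m * m else 0 := by
  obtain ⟨s, t⟩ := g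
  rw [Fintype.sum_prod_type]
  have e : ∀ a b : A, f2 h ((s, t) + (a, b)) * f2 h (a, b)
      = (h (s + a) * h a) * (h ((s - t) + (a - b)) * h (a - b)) := by
    intro a b
    simp only [f2, Prod.mk_add_mk]
    rw [show s + a - (t + b) = (s - t) + (a - b) by abel]
    ring
  simp only [e, ← mul_sum, P.shift, ← sum_mul, P.auto]
  by_cases hs : s = 0
  · subst hs
    by_cases ht : t = 0
    · subst ht; simp
    · simp [ht]
  · simp [hs]

theorem corr12 (P : Perfect h m) (g : A × A) :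
    ∑ y, f1 h (g + y) * f2 h y = m * f3 h g := by
  obtain ⟨s, t⟩ := g
  rw [Fintype.sum_prod_type]
  have e : ∀ a b : A, f1 h ((s, t) + (a, b)) * f2 h (a, b)
      = (h (s + a) * h a) * (h ((-t - a) + (a - b)) * h (a - b)) := by
    intro a b
    simp only [f1, f2, Prod.mk_add_mk]
    rw [show -(t + b) = (-t - a) + (a - b) by abel]
    ring
  simp only [e, ← mul_sum, P.shift]
  have e2 : ∀ a : A, (h (s + a) * h a) * (if -t - a = 0 then m else 0)
      = if a = -t then m * f3 h (s, t) else 0 := by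
    intro a
    by_cases ha : a = -t
    · subst ha
      simp only [sub_self, if_true, f3]
      rw [show s + -t = s - t by abel]
      ring
    · rw [if_neg ha, if_neg, mul_zero]
      intro h0
      exact ha (sub_eq_zero.1 h0).symm
  simp only [e2, sum_ite_eq', mem_univ, if_true]

theorem corr33 (P : Perfect h m) (g : A × A) :
    ∑ y, f3 h (g + y) * f3 h y = if g = 0 then m * m else 0 := by
  obtain ⟨s, t⟩ := g
  rw [Fintype.sum_prod_type_right]
  have e : ∀ a b : A, f3 h ((s, t) + (a, b)) * f3 h (a, b)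
      = (h ((s - t) + (a - b)) * h (a - b)) * (h (-t - b) * h (-b)) := by
    intro a b
    simp only [f3, Prod.mk_add_mk]
    rw [show s + a - (t + b) = (s - t) + (a - b) by abel, show -(t + b) = -t - b by abel]
    ring
  have e2 : ∀ b : A, ∑ a, h ((s - t) + (a - b)) * h (a - b) = if s - t = 0 then m else 0 := by
    intro b
    rw [← P.auto (s - t)]
    exact Equiv.sum_comp (Equiv.subRight b) (fun y => h ((s - t) + y) * h y)
  simp only [e, ← sum_mul, e2, ← mul_sum, P.auto']
  by_cases ht : t = 0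
  · subst ht
    by_cases hs : s = 0
    · subst hs; simp
    · simp [hs]
  · simp [ht]

theorem corr21 (P : Perfect h m) (g : A × A) :
    ∑ y, f2 h (g + y) * f1 h y = m * f3 h (-g) := by
  rw [← corr12 P (-g)]
  have := Equiv.sum_comp (Equiv.addLeft g) (fun z => f1 h (-g + z) * f2 h z)
  rw [← this]
  refine sum_congr rfl fun y _ => ?_
  simp [mul_comm]

theorem corr33' (P : Perfect h m) (g : A × A) :
    ∑ y, f3 h (-(g + y)) * f3 h (-y) = if g = 0 then m * m else 0 := by
  have h1 := corr33 P (-g)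
  rw [← Equiv.sum_comp (Equiv.neg (A × A))] at h1
  simp only [Equiv.neg_apply, neg_eq_zero] at h1
  rw [← h1]
  refine sum_congr rfl fun y _ => ?_
  rw [neg_add]

variable {c : ℤ}

omit [DecidableEq A] in
theorem sum1 (hs : ∑ x, h x = c) : ∑ x, f1 h x = c * c := by
  rw [Fintype.sum_prod_type]
  have h1 : ∑ x, h (-x) = c := by rw [← hs]; exact Equiv.sum_comp (Equiv.neg A) h
  simp only [f1, ← mul_sum, h1, ← sum_mul, hs]

omit [DecidableEq A] in
theorem sum2 (hs : ∑ x, h x = c) : ∑ x, f2 h x = c * c := by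
  rw [Fintype.sum_prod_type]
  have h1 : ∀ a, ∑ x, h (a - x) = c := by
    intro a; rw [← hs]; exact Equiv.sum_comp (Equiv.subLeft a) h
  simp only [f2, ← mul_sum, h1, ← sum_mul, hs]

omit [DecidableEq A] in
theorem sum3 (hs : ∑ x, h x = c) : ∑ x, f3 h x = c * c := by
  rw [Fintype.sum_prod_type_right]
  have h1 : ∀ b, ∑ x, h (x - b) = c := by
    intro a; rw [← hs]; exact Equiv.sum_comp (Equiv.subRight a) h
  have h2 : ∑ x, h (-x) = c := by rw [← hs]; exact Equiv.sum_comp (Equiv.neg A) h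
  simp only [f3, ← sum_mul, h1, ← mul_sum, h2]

omit [DecidableEq A] in
theorem sum3' (hs : ∑ x, h x = c) : ∑ x, f3 h (-x) = c * c := by
  rw [← sum3 hs]; exact Equiv.sum_comp (Equiv.neg (A × A)) (f3 h)

end corr

abbrev A6 := ZMod 6 × ZMod 6

/-- the Menon difference set of order 36: union of three subgroups of order 6 without 0 -/
def h6 (x : A6) : ℤ :=
  if x = 0 then 1 else if x.1 = 0 ∨ x.2 = 0 ∨ x.1 = x.2 then -1 else 1

theorem P6 : Perfect h6 36 where
  sgn := by decide
  auto := by decide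

theorem S6 : ∑ x, h6 x = 6 := by decide


/-- the group of order 1296 -/
abbrev GG := Multiplicative (A6 × A6)

def F (f : A6 × A6 → ℤ) (x : GG) : ℤ := f x.toAdd

theorem cardGG : Fintype.card GG = 1296 := by
  rw [Fintype.card_multiplicative]
  simp [ZMod.card]

theorem F_sum (f : A6 × A6 → ℤ) (h : ∑ x, f x = 36) : ∑ x, F f x = 36 := by
  rw [← h]
  exact Equiv.sum_comp Multiplicative.toAdd f

theorem card_F {f : A6 × A6 → ℤ} (hf : ∀ x, f x = 1 ∨ f x = -1) (hs : ∑ x, f x = 36) :
    (neg (F f)).card = 630 := by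
  have h1 := card_neg (f := F f) (fun x => hf _)
  rw [cardGG, F_sum f hs] at h1
  push_cast at h1
  omega

theorem cnt_F {f f' : A6 × A6 → ℤ} (hf : ∀ x, f x = 1 ∨ f x = -1) (hs : ∑ x, f x = 36)
    (hf' : ∀ x, f' x = 1 ∨ f' x = -1) (hs' : ∑ x, f' x = 36) (g : GG) :
    4 * ((((neg (F f) ×ˢ neg (F f')).filter (fun p : GG × GG => p.1 * p.2⁻¹ = g)).card : ℕ) : ℤ)
      = 1224 + ∑ y, f (g.toAdd + y) * f' y := by
  have h1 := cnt (f := F f) (f' := F f') (fun x => hf _) (fun x => hf' _) g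
  rw [cardGG, F_sum f hs, F_sum f' hs'] at h1
  have h2 : ∑ y, F f (g * y) * F f' y = ∑ y, f (g.toAdd + y) * f' y :=
    Equiv.sum_comp Multiplicative.toAdd (fun y => f (g.toAdd + y) * f' y)
  rw [h1, h2]
  push_cast
  ring

theorem ds_F {f : A6 × A6 → ℤ} (hf : ∀ x, f x = 1 ∨ f x = -1) (hs : ∑ x, f x = 36)
    (ha : ∀ g, ∑ y, f (g + y) * f y = if g = 0 then 36 * 36 else 0) :
    ∀ g : GG, g ≠ 1 →
      ((neg (F f) ×ˢ neg (F f)).filter (fun p : GG × GG => p.1 * p.2⁻¹ = g)).card = 306 := by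
  intro g hg
  have h1 := cnt_F hf hs hf hs g
  rw [ha, if_neg (by simpa using hg)] at h1
  omega

theorem link_F {f f' e : A6 × A6 → ℤ} (hf : ∀ x, f x = 1 ∨ f x = -1) (hs : ∑ x, f x = 36)
    (hf' : ∀ x, f' x = 1 ∨ f' x = -1) (hs' : ∑ x, f' x = 36)
    (he : ∀ x, e x = 1 ∨ e x = -1)
    (ha : ∀ g, ∑ y, f (g + y) * f' y = 36 * e g) (g : GG) :
    ((((neg (F f) ×ˢ neg (F f')).filter (fun p : GG × GG => p.1 * p.2⁻¹ = g)).card : ℕ) : ℤ)
      = (297 - 315) * (if g ∈ neg (F e) then (1 : ℤ) else 0) + 315 := by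
  have h1 := cnt_F hf hs hf' hs' g
  rw [ha] at h1
  rcases he g.toAdd with h | h
  · have h2 : g ∉ neg (F e) := by
      rw [mem_neg]; unfold F; rw [h]; decide
    rw [h] at h1
    rw [if_neg h2]
    omega
  · have h2 : g ∈ neg (F e) := by
      rw [mem_neg]; unfold F; exact h
    rw [h] at h1
    rw [if_pos h2]
    omega

/-- the two difference sets -/
def FF : Fin 2 → A6 × A6 → ℤ := ![f1 h6, f2 h6]

theorem FF_ne : neg (F (f1 h6)) ≠ neg (F (f2 h6)) := by
  intro h
  have h1 : (Multiplicative.ofAdd (((0, 1), (2, 1)) : A6 × A6)) ∈ neg (F (f1 h6)) ↔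
      (Multiplicative.ofAdd (((0, 1), (2, 1)) : A6 × A6)) ∈ neg (F (f2 h6)) := by rw [h]
  rw [mem_neg, mem_neg] at h1
  revert h1
  decide

end Pool.Agent.Lib.MP_16ad2f_co

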